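import Pool.Agent.H225.MX2

/-!
# Arithmetic progressions of almost twin primes with exact neighbourhoods of all members

Let `b ≥ 2` be a base, let `M ≤ b^{DK}` and let the difference `d` be ANY number with `c K < d ≤ b^{DK}`.  Let
`P` be ANY set of `k` pairs `(i, h)` with `0 ≤ i < l`, `0 ≤ h ≤ c K`, such that no prime divides one of the
numbers `m + i d + h`, `(i, h) ∈ P`, for all `m` (for example `P = {(i, 0), (i, 2)}` if `d` is divisible by
all primes `≤ 2 l`).  For
`m = M + n`, let the digits of `n < b^K` be restricted: the `i`-th digit belongs to a set `A i`, where the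
sets `A i` are arbitrary, depend on the place `i < K`, and have the only property that the number `∏ |A i|`
of these `n` is at least `e^{-δK} b^K`, where the constant `δ > 0` does not depend on `b`.

Then the sieve product `V` is at least `κ / K^k`, and (if the last digit can be chosen such that these
numbers are prime to `b`) for at least `κ V ∏ |A i|` of these `n` the numbers `m + i d + h`, `(i, h) ∈ P`, have
at most `r` prime factors, all larger than `b^{K/r}`, while ALL other numbers `m + i d + j`, `i < l`,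
`0 ≤ j ≤ c K`, have a prime factor `≤ b^{K/r}`: ALL the neighbourhoods of the numbers `m + i d` are prescribed
exactly on the scale of the mean distance.  For at most `C V ∏ |A i|` of these `n` the numbers `m + i d + h`,
`(i, h) ∈ P`, are all prime.  The constants depend only on `l`, `k`, `D`, `r`, `b`.

The method is a Brun–Hooley sieve with weights, whose level of distribution is obtained from the Fourier
transform of the set of the integers with restricted digits at rationals (large sieve in blocks of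
digits), see `Pool/Agent/Y816/PD`; the other numbers are excluded by the upper bound for patterns with one
more element near one of the members and an average of the sieve products, in which the coincidences
modulo `p` of the different members are controlled uniformly, see `Pool/Agent/H225/MX`, `MX2`.
-/

set_option autoImplicit false

namespace Pool.Agent.Results.MP_a1f59e_nt.ExactNeighbourhoods

open Finset Filter

/-- `p` divides one of the numbers `y + i d + h`, where `(i, h) ∈ P`. -/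
def Bad {l : ℕ} (d : ℕ) (P : Finset (Fin l × ℕ)) (p y : ℕ) : Prop :=
  ∃ x ∈ P, p ∣ y + x.1 * d + x.2

/-- No prime is bad for all `y`. -/
def Admissible {l : ℕ} (d : ℕ) (P : Finset (Fin l × ℕ)) : Prop :=
  ∀ p : ℕ, p.Prime → ∃ y : ℕ, ¬ Bad d P p y

open Classical in
/-- The number of the `y` modulo `p` for which `p` is bad. -/
noncomputable def nu {l : ℕ} (d : ℕ) (P : Finset (Fin l × ℕ)) (p : ℕ) : ℕ :=
  ((range p).filter (fun y : ℕ => Bad d P p y)).card

/-- The product of `1 - nu p / p` over the primes `p ≤ x`. -/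
noncomputable def V {l : ℕ} (d : ℕ) (P : Finset (Fin l × ℕ)) (x : ℕ) : ℝ :=
  ∏ p ∈ (Icc 1 x).filter Nat.Prime, (1 - (nu d P p : ℝ) / p)

open Classical in
/-- The number of the `n < b ^ K` in `T`, whose `i`-th digit in base `b` belongs to `A i` for all
`i < K`. -/
noncomputable def count (b K : ℕ) (A : ℕ → Finset ℕ) (T : Set ℕ) : ℕ :=
  ((range (b ^ K)).filter (fun n => (∀ i < K, n / b ^ i % b ∈ A i) ∧ n ∈ T)).card

/-- The number of choices of the digits. -/
noncomputable def choices (K : ℕ) (A : ℕ → Finset ℕ) : ℝ := ∏ i ∈ range K, ((A i).card : ℝ)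

/-- All prime factors of `m` are larger than `z ^ (1 / r)`. -/
def Rough (r z m : ℕ) : Prop := ∀ p : ℕ, p.Prime → p ∣ m → z < p ^ r

/-- `m` has at most `r` prime factors, all larger than `z ^ (1 / r)`. -/
def AlmostPrime (r z m : ℕ) : Prop := Rough r z m ∧ m.primeFactorsList.length ≤ r

open Pool.Agent.Y816.PD (ND ND_sub)
open Pool.Agent.H225.MX (fm Oc Adm)

/-- the constant terms -/
def ed (l d : ℕ) (i : Fin l) : ℤ := ((i * d : ℕ) : ℤ)

lemma fm_eq {l : ℕ} (d : ℕ) (x : Fin l × ℕ) (y : ℕ) :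
    fm (fun _ => 1) (ed l d) x y = ((y + x.1 * d + x.2 : ℕ) : ℤ) := by
  unfold ed
  unfold fm
  push_cast
  ring

lemma Oc_iff {l : ℕ} (d : ℕ) (P : Finset (Fin l × ℕ)) (p y : ℕ) :
    Oc (fun _ => 1) (ed l d) P p y ↔ Bad d P p y := by
  refine exists_congr fun x => and_congr_right fun _ => ?_
  rw [fm_eq]
  exact Int.natCast_dvd_natCast

lemma V_eq {l : ℕ} (d : ℕ) (P : Finset (Fin l × ℕ)) (x : ℕ) :
    Pool.Agent.H225.MX.V (fun _ => 1) (ed l d) P x = V d P x := by
  classical
  unfold V Pool.Agent.H225.MX.V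
  refine prod_congr rfl fun p _ => ?_
  have h : Pool.Agent.H225.MX.nu (fun _ => 1) (ed l d) P p = nu d P p := by
    unfold nu Pool.Agent.H225.MX.nu
    congr 1
    refine filter_congr fun y _ => ?_
    exact Oc_iff d P p y
  rw [h]

/-- **Arithmetic progressions of almost twin primes with exact neighbourhoods of all members.** -/
theorem result (l k D : ℕ) (hk : 1 ≤ k) :
    ∃ δ : ℝ, 0 < δ ∧ ∃ r₀ : ℕ, 2 ≤ r₀ ∧ ∀ r : ℕ, r₀ ≤ r → ∀ b : ℕ, 2 ≤ b →
      ∃ κ C c : ℝ, 0 < κ ∧ 0 < C ∧ 0 < c ∧ ∀ᶠ K : ℕ in atTop, ∀ M : ℕ, M ≤ b ^ (D * K) →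
        ∀ d : ℕ, c * K < d → d ≤ b ^ (D * K) →
        ∀ P : Finset (Fin l × ℕ), P.card = k → (∀ x ∈ P, (x.2 : ℝ) ≤ c * K) → Admissible d P →
        ∀ A : ℕ → Finset ℕ, (∀ i < K, A i ⊆ range b) →
        (b : ℝ) ^ K ≤ Real.exp (δ * K) * choices K A →
        κ / (K : ℝ) ^ k ≤ V d P (b ^ K) ∧
        ((∃ u ∈ A 0, ∀ x ∈ P, (M + u + x.1 * d + x.2).Coprime b) → (∃ u ∈ A (K - 1), u ≠ 0) →
          κ * choices K A * V d P (b ^ K) ≤
            count b K A {n | b ^ (K - 1) ≤ n ∧
              (∀ x ∈ P, AlmostPrime r (b ^ K) (M + n + x.1 * d + x.2)) ∧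
              ∀ x : Fin l × ℕ, (x.2 : ℝ) ≤ c * K → x ∉ P →
                ¬ Rough r (b ^ K) (M + n + x.1 * d + x.2)}) ∧
        (count b K A {n | ∀ x ∈ P, (M + n + x.1 * d + x.2).Prime} : ℝ) ≤
          C * choices K A * V d P (b ^ K) := by
  obtain ⟨δ, hδ, r₀, hr₀, h⟩ := Pool.Agent.H225.MX.exact (fun _ : Fin l => (1 : ℤ))
    (fun _ => one_ne_zero) k (D + 1) hk
  refine ⟨δ, hδ, r₀, hr₀, fun r hr b hb => ?_⟩
  obtain ⟨κ, C, c, hκ, hC, hc, h1⟩ := h r hr b hb
  refine ⟨κ, C, c, hκ, hC, hc, ?_⟩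
  filter_upwards [h1, eventually_ge_atTop l] with K hK hKl M hM d hcd hd P hPk hPc hadm A hA hprod
  have hKb : K < b ^ K := Nat.lt_pow_self (by omega)
  have hM' : M ≤ b ^ ((D + 1) * K) := hM.trans (Nat.pow_le_pow_right (by omega) (by nlinarith))
  have hadm' : Adm (fun _ => 1) (ed l d) P := fun p hp => by
    obtain ⟨y, hy⟩ := hadm p hp
    exact ⟨y, fun h => hy ((Oc_iff d P p y).1 h)⟩
  have key : ∀ u v : Fin l × ℕ, (u.1 : ℕ) < v.1 → (u.2 : ℝ) ≤ c * K →
      (v.1 : ℕ) * d + v.2 ≠ (u.1 : ℕ) * d + u.2 := by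
    intro u v huv hu he
    have h5 : ((u.1 : ℕ) + 1) * d ≤ (v.1 : ℕ) * d := Nat.mul_le_mul_right _ huv
    have h6 : d ≤ u.2 := by
      rw [add_mul, one_mul] at h5
      omega
    have h7 : (d : ℝ) ≤ u.2 := by exact_mod_cast h6
    linarith
  obtain ⟨h2, h3, h4⟩ := hK M hM' (ed l d) (fun i => by
      unfold ed
      rw [Int.natAbs_natCast]
      calc (i : ℕ) * d ≤ b ^ K * b ^ (D * K) := Nat.mul_le_mul (by have := i.2; omega) hd
        _ = b ^ ((D + 1) * K) := by rw [← pow_add]; congr 1; ring) P hPk hPc hadm'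
      (fun x hx y hxy hy _ hcon => by
      unfold ed at hcon
      rw [one_mul, one_mul] at hcon
      have h5 : (y.1 : ℕ) * d + y.2 = (x.1 : ℕ) * d + x.2 := by exact_mod_cast hcon
      rcases lt_or_gt_of_ne (fun h => hxy (Fin.ext h) : (x.1 : ℕ) ≠ y.1) with h | h
      · exact key x y h (hPc x hx) h5
      · exact key y x h hy h5.symm) A hA hprod
  rw [V_eq] at h2 h3 h4
  simp only [fm_eq, Int.natAbs_natCast] at h3 h4
  refine ⟨h2, h3, le_trans (Nat.cast_le.2 ?_) h4⟩
  refine ND_sub fun n hn hn1 hn2 => ⟨hn1, fun x hx p hp hpd => ?_⟩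
  have hpr : (M + n + x.1 * d + x.2).Prime := hn2 x hx
  rw [(Nat.prime_dvd_prime_iff_eq hp hpr).1 hpd]
  have h6 : (M + n + x.1 * d + x.2) ^ 2 ≤ (M + n + x.1 * d + x.2) ^ r :=
    Nat.pow_le_pow_right hpr.pos (hr₀.trans hr)
  have h7 := hpr.two_le
  nlinarith

end Pool.Agent.Results.MP_a1f59e_nt.ExactNeighbourhoods
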