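import Pool.Agent.V11237.LP.TAP

set_option autoImplicit false

/-!
# Arithmetic progressions of almost twin primes with one prime, for every common difference

Let `M` be the product of the primes up to `2 k + 1`, let `d` be ANY multiple of `M` with
`N ^ δ' ≤ d ≤ N ^ E`, and fix the place `j < k` and the side (`s = 2` or `s = -2`). A prime `q` is good if
all `q + (i - j) d` and `q + (i - j) d + s`, `i < k`, are free of prime factors `≤ N ^ (1 / r)`: then `q`
is a member of the `j`-th pair of a progression of `k` pairs with common difference `d`, and all the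
`2 k` numbers are almost primes. The number of the good primes in each class modulo `M`, in all
intervals of positive proportion below any `X ≥ N ^ θ`, is asymptotic (up to a factor `1 ± ε`), and
after them the next good integers follow the Poisson law; uniformly in `d`.
-/

namespace Pool.Agent.Results.MP_a1f59e_nt.LawAfterPrimes

open Finset
open Pool.Agent.V11237.LP.TAP

/-- **Progressions of almost twin primes with a prime at a given place.** -/
theorem result (k : ℕ) (hk : 1 ≤ k) (E : ℕ) (hE : 1 ≤ E) (δ' θ δ : ℝ) (hδ' : 0 < δ') (hθ : 0 < θ)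
    (hδ : 0 < δ) (hδ1 : δ ≤ 1) (x₀ ε : ℝ) (hε : 0 < ε) (hε1 : ε ≤ 1) :
    ∃ r₀ : ℕ, 2 ≤ r₀ ∧ ∀ r : ℕ, r₀ ≤ r → ∃ N₀ : ℕ, ∀ N : ℕ, N₀ ≤ N → ∀ (d b j : ℕ) (s : ℤ),
      M k ∣ d → (N : ℝ) ^ δ' ≤ d → d ≤ N ^ E → j < k → (s = 2 ∨ s = -2) →
      b < M k → IsCoprime (M k : ℤ) b → IsCoprime (M k : ℤ) (b + s) →
      (∀ q : ℕ, q ≤ N ^ E → Good k j d s N r q → ∀ i < k,
        ((q : ℤ) + ((i : ℤ) - j) * d).natAbs.primeFactorsList.length ≤ (E + 1) * r ∧
        ((q : ℤ) + ((i : ℤ) - j) * d + s).natAbs.primeFactorsList.length ≤ (E + 1) * r) ∧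
      0 < V k j d s b N r ∧
      ∀ X : ℕ, (N : ℝ) ^ θ ≤ X → ∀ u Y : ℕ, δ * X ≤ Y → u + Y ≤ X →
        |((P k j d s b N r u Y).card : ℝ) * Real.log X - Y * (V k j d s b N r / U N r)| ≤
          ε * (Y * (V k j d s b N r / U N r)) ∧
        ∀ T : ℕ, T * V k j d s b N r ≤ x₀ → ∀ S : Finset ℕ,
        |(((P k j d s b N r u Y).filter (fun x => Next k j d s b N r T x ∈ S)).card : ℝ) -
          (P k j d s b N r u Y).card *
            ∑ i ∈ S, Real.exp (-(T * V k j d s b N r)) * (T * V k j d s b N r) ^ i / i.factorial| ≤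
          ε * (P k j d s b N r u Y).card := by
  obtain ⟨r0, hr0, h0⟩ := law k hk E δ' θ δ (by positivity) hδ' hθ hδ hδ1 x₀ ε hε hε1
  refine ⟨r0, hr0, ?_⟩
  intro r hr
  obtain ⟨N1, hN1⟩ := h0 r hr
  refine ⟨max N1 (k + 3), ?_⟩
  intro N hN d b j s hd hdl hdu hj hs hbM hb1 hb2
  have hNk : k + 3 ≤ N := (le_max_right _ _).trans hN
  refine ⟨?_, hN1 N ((le_max_left _ _).trans hN) d b j s hd hdl (by
    rw [Real.rpow_natCast]
    exact_mod_cast hdu) hj hs hbM hb1 hb2⟩
  intro q hq hg i hi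
  have hNE : 1 ≤ N ^ E := Nat.one_le_pow _ _ (by omega)
  have hbig : ((k : ℤ) + 3) * (N ^ E : ℕ) ≤ (N ^ (E + 1) : ℕ) := by
    have : (k + 3) * N ^ E ≤ N ^ (E + 1) := by
      rw [pow_succ, mul_comm]
      exact Nat.mul_le_mul_left _ hNk
    exact_mod_cast this
  have h1 : |((i : ℤ) - j) * d| ≤ k * (N ^ E : ℕ) := by
    rw [abs_mul]
    have e1 : |(i : ℤ) - j| ≤ k := by
      rw [abs_le]
      constructor <;> omega
    have e2 : |(d : ℤ)| ≤ (N ^ E : ℕ) := by
      rw [abs_of_nonneg (by positivity)]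
      exact_mod_cast hdu
    exact mul_le_mul e1 e2 (abs_nonneg _) (by positivity)
  rw [abs_le] at h1
  have hq' : (q : ℤ) ≤ (N ^ E : ℕ) := by exact_mod_cast hq
  have hq0 : (0 : ℤ) ≤ q := by positivity
  have hNE' : (1 : ℤ) ≤ (N ^ E : ℕ) := by exact_mod_cast hNE
  have key : ∀ z : ℤ, |z| ≤ ((k : ℤ) + 3) * (N ^ E : ℕ) →
      (∀ p : ℕ, p.Prime → (p : ℝ) ≤ (N : ℝ) ^ (1 / (r : ℝ)) → ¬ (p : ℤ) ∣ z) →
      z.natAbs.primeFactorsList.length ≤ (E + 1) * r := by
    intro z hz hgz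
    by_cases hz0 : z = 0
    · rw [hz0]
      simp
    · apply Pool.Agent.V11237.LP.Short.few (by omega) (by omega : 2 ≤ N)
        (by rwa [Ne, Int.natAbs_eq_zero])
      · have : |z| ≤ (N ^ (E + 1) : ℕ) := hz.trans hbig
        rw [Int.abs_eq_natAbs] at this
        exact_mod_cast this
      · intro p hp hpz hd'
        exact hgz p hp hpz (Int.natCast_dvd.2 hd')
  refine ⟨key _ ?_ (fun p hp hpz => (hg p hp hpz i hi).1), key _ ?_ (fun p hp hpz => (hg p hp hpz i hi).2)⟩
  · rw [abs_le]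
    constructor <;> nlinarith
  · rw [abs_le]
    rcases hs with rfl | rfl <;> constructor <;> nlinarith

end Pool.Agent.Results.MP_a1f59e_nt.LawAfterPrimes
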