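import Pool.Agent.Y840.CT.Low

/-!
# Arithmetic progressions of almost twin primes with very small common differences

Chen primes without small prime factors (also of `p + 2`) have the expected number in all intervals of
length `θ X`, and every subset of positive relative density of the set of all `n ≤ X`, for which `n` and
`n + 2` are free of prime factors `≤ X ^ κ`, contains `l`-term progressions with common difference at most
`log ^ D X`.
-/

set_option autoImplicit false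

open Finset Filter

namespace Pool.Agent.Results.MP_a1f59e_nt.NarrowChen

open Classical in
/-- the primes `p` of `(A, B]` such that `p + 2` is a product of at most two primes, where `p` and all the
prime factors of `p + 2` are larger than `X ^ η` -/
noncomputable def Chen (η : ℝ) (X A B : ℕ) : Finset ℕ :=
  (Ioc A B).filter (fun p : ℕ => p.Prime ∧ (X : ℝ) ^ η < p ∧ (p + 2).primeFactorsList.length ≤ 2 ∧
    ∀ q : ℕ, q.Prime → q ∣ p + 2 → (X : ℝ) ^ η < q)

/-- all prime factors of `n` and of `n + 2` are larger than `X ^ κ` -/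
def Rough (κ : ℝ) (X n : ℕ) : Prop := ∀ q : ℕ, q.Prime → q ∣ n * (n + 2) → (X : ℝ) ^ κ < q

theorem sys {X : ℕ} (hX : 2 ≤ X) : Pool.Agent.Y840.CT.Sys 1 X {-2} := by
  constructor
  · simp
  · intro h hh
    rw [mem_singleton] at hh
    subst hh
    refine ⟨by norm_num, ?_⟩
    norm_num
    exact_mod_cast hX
  · intro q hq
    unfold Pool.Agent.Y840.CT.rho
    rcases Nat.lt_or_ge q 3 with hq3 | hq3
    · have hq2 := hq.two_le
      have : q = 2 := by omega
      subst this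
      decide
    · refine lt_of_le_of_lt (card_image_le.trans ?_) hq3
      exact card_le_two

/-- the forbidden classes: those of `0` and `-2` -/
def Z (p : ℕ) : Finset ℕ := if p = 2 then {0} else {0, p - 2}

theorem VV_Z_le (Y : ℕ) : Pool.Agent.Y843.HS.VV Z 0 Y ≤ 2 * Pool.Agent.Y843.HG.V1 Y ^ 2 := by
  classical
  unfold Pool.Agent.Y843.HS.VV Pool.Agent.Y843.HG.V1
  rw [← prod_pow]
  have h1 : ∀ p ∈ Pool.Agent.Y843.HS.Pr 0 Y, (1 - ((Z p).card : ℝ) / p) ≤
      (if p = 2 then (2 : ℝ) else 1) * (1 - 1 / (p : ℝ)) ^ 2 := by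
    intro p hp
    have hpp := Pool.Agent.Y843.HS.Pr_prime hp
    have hp0 : (0 : ℝ) < p := by exact_mod_cast hpp.pos
    by_cases h2 : p = 2
    · subst h2
      simp only [Z, if_true, card_singleton]
      norm_num
    · have hc : (Z p).card = 2 := by
        unfold Z
        rw [if_neg h2]
        have := hpp.two_le
        exact card_pair (by omega)
      rw [hc, if_neg h2, one_mul]
      have : (1 - 1 / (p : ℝ)) ^ 2 = 1 - (2 : ℕ) / (p : ℝ) + (1 / (p : ℝ)) ^ 2 := by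
        push_cast
        ring
      rw [this]
      have : (0 : ℝ) ≤ (1 / (p : ℝ)) ^ 2 := by positivity
      linarith
  have h0 : ∀ p ∈ Pool.Agent.Y843.HS.Pr 0 Y, 0 ≤ (1 - ((Z p).card : ℝ) / p) := by
    intro p hp
    have hpp := Pool.Agent.Y843.HS.Pr_prime hp
    have hp0 : (0 : ℝ) < p := by exact_mod_cast hpp.pos
    rw [sub_nonneg, div_le_one hp0]
    have h2 := hpp.two_le
    unfold Z
    split_ifs with h
    · rw [card_singleton]
      exact_mod_cast (by omega : 1 ≤ p)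
    · exact_mod_cast card_le_two.trans h2
  refine (prod_le_prod h0 h1).trans ?_
  rw [prod_mul_distrib]
  apply mul_le_mul_of_nonneg_right _ (prod_nonneg fun p _ => by positivity)
  rw [prod_ite_eq']
  split_ifs <;> norm_num

/-- (1) For some `η > 0`, `c > 0` and all `θ > 0`: for large `X` every interval `(A, B] ⊆ (0, X]` of length
at least `θ X` contains at least `c (B - A) / log ^ 2 X` primes of `Chen η X A B`.
(2) For all `l`, `κ > 0`, `δ > 0` there is `D` such that for large `X` every set of at least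
`δ X / log ^ 2 X` numbers `n ≤ X`, for which all prime factors of `n (n + 2)` are larger than `X ^ κ`,
contains an `l`-term arithmetic progression with common difference at most `log ^ D X`.
(3) Both together, for the subsets of `Chen η X A B`.
(4) If for some `l` there is no `l`-term progression of twin primes, then the number of the twin primes up to
`X` is `o(X / log ^ 2 X)`. -/
theorem result : ∃ η : ℝ, 0 < η ∧ ∃ c : ℝ, 0 < c ∧
    (∀ θ : ℝ, 0 < θ → ∃ X₀ : ℕ, ∀ X : ℕ, X₀ ≤ X → ∀ A B : ℕ, B ≤ X → θ * X ≤ (B : ℝ) - A →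
      c * ((B : ℝ) - A) / Real.log X ^ 2 ≤ ((Chen η X A B).card : ℝ)) ∧
    (∀ l : ℕ, ∀ κ δ : ℝ, 0 < κ → 0 < δ → ∃ D X₀ : ℕ, ∀ X : ℕ, X₀ ≤ X → ∀ S : Finset ℕ,
      (∀ n ∈ S, 1 ≤ n ∧ n ≤ X ∧ Rough κ X n) → δ * X / Real.log X ^ 2 ≤ (S.card : ℝ) →
        ∃ a d : ℕ, 1 ≤ d ∧ (d : ℝ) ≤ Real.log X ^ D ∧ ∀ j < l, a + j * d ∈ S) ∧
    (∀ l : ℕ, ∀ θ δ : ℝ, 0 < θ → 0 < δ → ∃ D X₀ : ℕ, ∀ X : ℕ, X₀ ≤ X → ∀ A B : ℕ, B ≤ X →
      θ * X ≤ (B : ℝ) - A → ∀ S : Finset ℕ, S ⊆ Chen η X A B →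
      δ * ((Chen η X A B).card : ℝ) ≤ (S.card : ℝ) →
        ∃ a d : ℕ, 1 ≤ d ∧ (d : ℝ) ≤ Real.log X ^ D ∧ ∀ j < l, a + j * d ∈ S) ∧
    (∀ l : ℕ, (¬ ∃ a b : ℕ, 1 ≤ a ∧ 1 ≤ b ∧ ∀ k < l, (a + k * b).Prime ∧ (a + k * b + 2).Prime) →
      ∀ δ : ℝ, 0 < δ → ∃ X₀ : ℕ, ∀ X : ℕ, X₀ ≤ X →
        (((Icc 1 X).filter (fun p : ℕ => p.Prime ∧ (p + 2).Prime)).card : ℝ) ≤ δ * X / Real.log X ^ 2) := by
  classical
  obtain ⟨t, ht, c, hc, H1, -⟩ := Pool.Agent.Y840.CT.genI 1
  obtain ⟨c2, hc2, hV⟩ := Pool.Agent.Y840.CT.Vp_low 1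
  have ht0 : (0 : ℝ) < t := by exact_mod_cast ht
  set η : ℝ := min (1 / 9) (1 / t) with hη
  have hη0 : 0 < η := by rw [hη]; positivity
  have P1 : ∀ θ : ℝ, 0 < θ → ∃ X₀ : ℕ, ∀ X : ℕ, X₀ ≤ X → ∀ A B : ℕ, B ≤ X → θ * X ≤ (B : ℝ) - A →
      (c * c2) * ((B : ℝ) - A) / Real.log X ^ 2 ≤ ((Chen η X A B).card : ℝ) := by
    intro θ hθ
    obtain ⟨X₀, h1⟩ := H1 θ hθ
    refine ⟨max X₀ 2, fun X hX A B hB hAB => ?_⟩
    have hX2 : 2 ≤ X := (le_max_right _ _).trans hX
    have hX1 : (1 : ℝ) ≤ X := by exact_mod_cast (by omega : 1 ≤ X)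
    have hS := sys hX2
    have h2 := h1 X ((le_max_left _ _).trans hX) _ hS (-2) (mem_singleton_self _) A B hB hAB
    have h3 := hV X hX2 {-2} hS.card hS.loc
    have hAB0 : 0 ≤ (B : ℝ) - A := le_trans (by positivity) hAB
    have h4 : (Pool.Agent.Y840.CT.Good t X A B {-2} (-2)).card ≤ (Chen η X A B).card := by
      apply card_le_card
      intro p hp
      unfold Pool.Agent.Y840.CT.Good at hp
      rw [mem_filter] at hp
      obtain ⟨p1, p2, p3, p4, -⟩ := hp
      unfold Chen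
      rw [mem_filter]
      have e : ((-2 : ℤ) - p).natAbs = p + 2 := by omega
      refine ⟨p1, p2, ?_, ?_, ?_⟩
      · refine lt_of_le_of_lt ?_ p3
        exact Real.rpow_le_rpow_of_exponent_le hX1 (min_le_right _ _)
      · have := p4.2.1
        rwa [e] at this
      · intro q hq hd
        refine lt_of_le_of_lt ?_ (p4.2.2 q hq ?_)
        · exact Real.rpow_le_rpow_of_exponent_le hX1 (min_le_left _ _)
        · rw [← Int.natCast_dvd_natCast] at hd
          have : ((-2 : ℤ) - p) = -((p + 2 : ℕ) : ℤ) := by push_cast; ring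
          rw [this, dvd_neg]
          exact hd
    calc (c * c2) * ((B : ℝ) - A) / Real.log X ^ 2 = c * ((B : ℝ) - A) * (c2 / Real.log X ^ (1 + 1)) := by
          ring
      _ ≤ c * ((B : ℝ) - A) * Pool.Agent.Y840.CT.Vp {-2} X := by gcongr
      _ ≤ _ := h2
      _ ≤ _ := by exact_mod_cast h4
  have P2 : ∀ l : ℕ, ∀ κ δ : ℝ, 0 < κ → 0 < δ → ∃ D X₀ : ℕ, ∀ X : ℕ, X₀ ≤ X → ∀ S : Finset ℕ,
      (∀ n ∈ S, 1 ≤ n ∧ n ≤ X ∧ Rough κ X n) → δ * X / Real.log X ^ 2 ≤ (S.card : ℝ) →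
        ∃ a d : ℕ, 1 ≤ d ∧ (d : ℝ) ≤ Real.log X ^ D ∧ ∀ j < l, a + j * d ∈ S := by
    intro l κ δ hκ hδ
    obtain ⟨r, hr⟩ := exists_nat_gt (1 / κ)
    have hr0 : (0 : ℝ) < r := lt_trans (by positivity) hr
    have hr1 : 1 ≤ r := by exact_mod_cast hr0
    have hrκ : 1 / (r : ℝ) ≤ κ := by
      rw [div_le_iff₀ hr0]
      rw [div_lt_iff₀ hκ] at hr
      nlinarith
    obtain ⟨c', C, hc', hC, hVb⟩ := Pool.Agent.Y843.HG.V1_bounds
    obtain ⟨n₀, h0⟩ := Pool.Agent.Y843.HG.log_floor r hr1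
    have hC2 : 0 < 2 * (C * (2 * r)) ^ 2 := by positivity
    obtain ⟨D, X₁, h2⟩ := Pool.Agent.Y843.HS.fin l 2 (1 / (r : ℝ)) (δ / (2 * (C * (2 * r)) ^ 2))
      (by positivity) (by positivity)
    refine ⟨D, max (max X₁ n₀) 3, fun X hX S hS hSc => ?_⟩
    have hX3 : 3 ≤ X := (le_max_right _ _).trans hX
    have hXr : (1 : ℝ) ≤ X := by exact_mod_cast (by omega : 1 ≤ X)
    have hXp : (0 : ℝ) < X := by linarith
    obtain ⟨f1, f2⟩ := h0 X (((le_max_right _ _).trans (le_max_left _ _)).trans hX)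
    have hl : 0 < Real.log X := Real.log_pos (by exact_mod_cast (by omega : 1 < X))
    apply h2 X 0 (((le_max_left _ _).trans (le_max_left _ _)).trans hX) Z
    · intro p hp _
      have hp2 := hp.two_le
      unfold Z
      split_ifs with h
      · refine ⟨by simp, by rw [card_singleton]; omega, ?_⟩
        intro x hx
        rw [mem_singleton] at hx
        omega
      · refine ⟨card_le_two, lt_of_le_of_lt card_le_two (by omega), ?_⟩
        intro x hx
        rw [mem_insert, mem_singleton] at hx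
        omega
    · intro n hn
      obtain ⟨a1, a2, -⟩ := hS n hn
      rw [mem_Ioc]
      omega
    · intro n hn p hp hpX hcon
      obtain ⟨-, -, a3⟩ := hS n hn
      have hp2 := hp.two_le
      have hd : p ∣ n * (n + 2) := by
        unfold Z at hcon
        split_ifs at hcon with h
        · rw [mem_singleton] at hcon
          exact dvd_mul_of_dvd_left (Nat.dvd_of_mod_eq_zero hcon) _
        · rw [mem_insert, mem_singleton] at hcon
          rcases hcon with h5 | h5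
          · exact dvd_mul_of_dvd_left (Nat.dvd_of_mod_eq_zero h5) _
          · apply dvd_mul_of_dvd_right
            apply Nat.dvd_of_mod_eq_zero
            rw [Nat.add_mod, h5]
            rcases Nat.lt_or_ge 2 p with h6 | h6
            · rw [Nat.mod_eq_of_lt h6, Nat.sub_add_cancel hp2, Nat.mod_self]
            · omega
      have := a3 p hp hd
      have h7 : (X : ℝ) ^ (1 / (r : ℝ)) ≤ (X : ℝ) ^ κ := Real.rpow_le_rpow_of_exponent_le hXr hrκ
      linarith
    · refine le_trans ?_ hSc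
      have h4 := (hVb _ f1).2
      have h5 : Pool.Agent.Y843.HG.V1 ⌊(X : ℝ) ^ (1 / (r : ℝ))⌋₊ ≤ C * (2 * r) / Real.log X := by
        refine h4.trans ?_
        rw [div_le_div_iff₀ (lt_of_lt_of_le (by positivity) f2) hl]
        rw [div_le_iff₀ (by positivity)] at f2
        calc C * Real.log X ≤ C * (Real.log (⌊(X : ℝ) ^ (1 / (r : ℝ))⌋₊ : ℕ) * (2 * r)) :=
              mul_le_mul_of_nonneg_left f2 hC.le
          _ = _ := by ring
      have h6 := (VV_Z_le ⌊(X : ℝ) ^ (1 / (r : ℝ))⌋₊).trans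
        (mul_le_mul_of_nonneg_left (pow_le_pow_left₀ (Pool.Agent.Y843.HG.V1_pos _).le h5 2) (by norm_num : (0 : ℝ) ≤ 2))
      calc δ / (2 * (C * (2 * r)) ^ 2) * X * Pool.Agent.Y843.HS.VV Z 0 ⌊(X : ℝ) ^ (1 / (r : ℝ))⌋₊ ≤
            δ / (2 * (C * (2 * r)) ^ 2) * X * (2 * (C * (2 * r) / Real.log X) ^ 2) := by
            apply mul_le_mul_of_nonneg_left h6 (by positivity)
        _ = δ * X / Real.log X ^ 2 := by
            field_simp
  have P4 : ∀ l : ℕ, (¬ ∃ a b : ℕ, 1 ≤ a ∧ 1 ≤ b ∧ ∀ k < l, (a + k * b).Prime ∧ (a + k * b + 2).Prime) →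
      ∀ δ : ℝ, 0 < δ → ∃ X₀ : ℕ, ∀ X : ℕ, X₀ ≤ X →
        (((Icc 1 X).filter (fun p : ℕ => p.Prime ∧ (p + 2).Prime)).card : ℝ) ≤ δ * X / Real.log X ^ 2 := by
    intro l hl δ hδ
    have hl0 : 0 < l := by
      by_contra h
      apply hl
      exact ⟨1, 1, le_refl _, le_refl _, fun k hk => by omega⟩
    obtain ⟨D, X₁, h1⟩ := P2 l (1 / 2) (δ / 2) (by norm_num) (by positivity)
    -- `√X = o(X / log ^ 2 X)`
    have e1 : ∀ᶠ X : ℕ in atTop, (X : ℝ) ^ (1 / 2 : ℝ) ≤ δ / 2 * X / Real.log X ^ 2 := by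
      have h2 : (fun x : ℝ => Real.log x ^ 2) =o[atTop] (fun x : ℝ => x ^ (1 / 2 : ℝ)) := by
        have h3 := isLittleO_log_rpow_rpow_atTop (s := (1 / 2 : ℝ)) 2 (by norm_num)
        refine h3.congr' ?_ EventuallyEq.rfl
        filter_upwards with x
        rw [← Real.rpow_natCast]
        norm_num
      have h3 := (h2.def (show (0 : ℝ) < δ / 2 by positivity))
      have h4 := tendsto_natCast_atTop_atTop (R := ℝ) |>.eventually h3
      filter_upwards [h4, eventually_ge_atTop 3] with X hX hX3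
      have hX0 : (0 : ℝ) < X := by exact_mod_cast (by omega : 0 < X)
      have hlX : 0 < Real.log X := Real.log_pos (by exact_mod_cast (by omega : 1 < X))
      rw [Real.norm_of_nonneg (by positivity), Real.norm_of_nonneg (by positivity)] at hX
      rw [le_div_iff₀ (by positivity)]
      have h5 : (X : ℝ) ^ (1 / 2 : ℝ) * (X : ℝ) ^ (1 / 2 : ℝ) = X := by
        rw [← Real.rpow_add hX0]
        norm_num
      calc (X : ℝ) ^ (1 / 2 : ℝ) * Real.log X ^ 2 ≤ (X : ℝ) ^ (1 / 2 : ℝ) * (δ / 2 * (X : ℝ) ^ (1 / 2 : ℝ)) := by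
            gcongr
        _ = δ / 2 * ((X : ℝ) ^ (1 / 2 : ℝ) * (X : ℝ) ^ (1 / 2 : ℝ)) := by ring
        _ = _ := by rw [h5]
    obtain ⟨X₂, h2⟩ := eventually_atTop.1 e1
    refine ⟨max X₁ X₂, fun X hX => ?_⟩
    by_contra hcon
    push Not at hcon
    apply hl
    have h3 := h2 X ((le_max_right _ _).trans hX)
    set T := (Icc 1 X).filter (fun p : ℕ => p.Prime ∧ (p + 2).Prime) with hT
    obtain ⟨a, d, hd, -, hS⟩ := h1 X ((le_max_left _ _).trans hX)
      (T.filter (fun p : ℕ => (X : ℝ) ^ (1 / 2 : ℝ) < p)) (by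
        intro n hn
        rw [mem_filter, hT, mem_filter, mem_Icc] at hn
        obtain ⟨⟨⟨n1, n2⟩, n3, n4⟩, n5⟩ := hn
        refine ⟨n1, n2, ?_⟩
        intro q hq hqd
        rcases (Nat.Prime.dvd_mul hq).1 hqd with h | h
        · rw [(Nat.prime_dvd_prime_iff_eq hq n3).1 h]
          exact n5
        · rw [(Nat.prime_dvd_prime_iff_eq hq n4).1 h]
          push_cast
          linarith) (by
        have h4 : (T.filter (fun p : ℕ => ¬ (X : ℝ) ^ (1 / 2 : ℝ) < p)).card ≤ ⌊(X : ℝ) ^ (1 / 2 : ℝ)⌋₊ := by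
          calc _ ≤ (Icc 1 ⌊(X : ℝ) ^ (1 / 2 : ℝ)⌋₊).card := by
                apply card_le_card
                intro p hp
                rw [mem_filter, hT, mem_filter, mem_Icc] at hp
                rw [mem_Icc]
                exact ⟨hp.1.1.1, Nat.le_floor (not_lt.1 hp.2)⟩
            _ = _ := by rw [Nat.card_Icc, Nat.add_sub_cancel]
        have h5 := card_filter_add_card_filter_not (s := T) (fun p : ℕ => (X : ℝ) ^ (1 / 2 : ℝ) < p)
        have h6 : ((⌊(X : ℝ) ^ (1 / 2 : ℝ)⌋₊ : ℕ) : ℝ) ≤ (X : ℝ) ^ (1 / 2 : ℝ) := Nat.floor_le (by positivity)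
        have h7 : (T.card : ℝ) ≤ ((T.filter (fun p : ℕ => (X : ℝ) ^ (1 / 2 : ℝ) < p)).card : ℝ) +
            (⌊(X : ℝ) ^ (1 / 2 : ℝ)⌋₊ : ℕ) := by
          rw [← h5]
          push_cast
          have : ((T.filter (fun p : ℕ => ¬ (X : ℝ) ^ (1 / 2 : ℝ) < p)).card : ℝ) ≤
            (⌊(X : ℝ) ^ (1 / 2 : ℝ)⌋₊ : ℕ) := by exact_mod_cast h4
          linarith
        have h8 : δ * X / Real.log X ^ 2 = δ / 2 * X / Real.log X ^ 2 + δ / 2 * X / Real.log X ^ 2 := by ring
        linarith)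
    have h9 : ∀ k < l, (a + k * d) ∈ T := fun k hk => (mem_filter.1 (hS k hk)).1
    refine ⟨a, d, ?_, hd, ?_⟩
    · have := h9 0 hl0
      rw [hT, mem_filter, mem_Icc] at this
      omega
    · intro k hk
      have := h9 k hk
      rw [hT, mem_filter] at this
      exact this.2
  refine ⟨η, hη0, c * c2, by positivity, P1, P2, ?_, P4⟩
  intro l θ δ hθ hδ
  obtain ⟨X₀, h1⟩ := P1 θ hθ
  obtain ⟨D, X₁, h2⟩ := P2 l η (δ * (c * c2 * θ)) hη0 (by positivity)
  refine ⟨D, max X₀ X₁, fun X hX A B hB hAB S hS hSc => ?_⟩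
  apply h2 X ((le_max_right _ _).trans hX) S
  · intro n hn
    have h3 := hS hn
    unfold Chen at h3
    rw [mem_filter, mem_Ioc] at h3
    obtain ⟨⟨b1, b2⟩, b3, b4, -, b5⟩ := h3
    refine ⟨by omega, by omega, ?_⟩
    intro q hq hd
    rcases (Nat.Prime.dvd_mul hq).1 hd with h | h
    · rw [(Nat.prime_dvd_prime_iff_eq hq b3).1 h]
      exact b4
    · exact b5 q hq h
  · refine le_trans ?_ hSc
    have h3 := h1 X ((le_max_left _ _).trans hX) A B hB hAB
    calc δ * (c * c2 * θ) * X / Real.log X ^ 2 = δ * (c * c2 * (θ * X) / Real.log X ^ 2) := by ring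
      _ ≤ δ * (c * c2 * ((B : ℝ) - A) / Real.log X ^ 2) := by gcongr
      _ ≤ _ := by gcongr

end Pool.Agent.Results.MP_a1f59e_nt.NarrowChen
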