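import Pool.Agent.V11249.NP.Reg
import Pool.Agent.V11249.NP.Fam

/-!
# Progressions of almost twin primes with a fixed difference: regular windows in all short intervals

Let `D` be a multiple of all the primes `≤ 2 l`. The `l`-term progressions `n, n + D, …, n + (l - 1) D` for which all the
numbers `n + j D` and `n + j D + 2` are almost primes: in every interval `(X, X + Y]` with `X ^ θ ≤ Y ≤ X` a positive
proportion of the integers `x` is regular: every window `(a, b]` around `x` of length between `K log ^ (2 l) X` and `Y`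
contains the right order of the first terms `n` of such progressions, and around `x` their density is constant at all
but boundedly many scales.
-/

set_option autoImplicit false

open Finset Filter Polynomial

namespace Pool.Agent.Results.MP_a1f59e_nt.RegularWindows

/-- `n` has at most `r` prime factors (with multiplicity), all larger than `z` -/
def Almost (r : ℕ) (z : ℝ) (n : ℕ) : Prop := n.primeFactorsList.length ≤ r ∧ ∀ q : ℕ, q.Prime → q ∣ n → z < q

/-- all the `n + j D`, `j < l`, are first members of almost twin prime pairs -/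
def TwinAP (l D r : ℕ) (z : ℝ) (n : ℕ) : Prop := ∀ j < l, Almost r z (n + j * D) ∧ Almost r z (n + j * D + 2)

open Classical in
/-- the number of such `n` in `(a, b]`, all prime factors being larger than `X ^ (1 / r)` -/
noncomputable def cnt (l D r X a b : ℕ) : ℕ :=
  ((Ioc a b).filter (fun n => TwinAP l D r ((X : ℝ) ^ (1 / (r : ℝ))) n)).card

/-- all windows `(a, b]` around `x`, of length between `K log ^ (2 l) X` and `Y`, contain the right order of such `n` -/
def Regular (l D r : ℕ) (c₁ c₂ K : ℝ) (X Y x : ℕ) : Prop :=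
  ∀ a b : ℕ, a ≤ x → x ≤ b → K * Real.log X ^ (2 * l) ≤ (b : ℝ) - a → (b : ℝ) - a ≤ Y →
    c₁ * ((b : ℝ) - a) / Real.log X ^ (2 * l) ≤ (cnt l D r X a b : ℝ) ∧
    (cnt l D r X a b : ℝ) ≤ c₂ * ((b : ℝ) - a) / Real.log X ^ (2 * l)

/-- the density is constant on `[x - 2 ^ j, x + 2 ^ j]`, up to `δ` -/
def Constant (l D r : ℕ) (c₁ c₂ δ : ℝ) (X x j : ℕ) : Prop :=
  ∃ lam : ℝ, c₁ ≤ lam ∧ lam ≤ c₂ ∧ ∀ u v : ℕ, x ≤ u + 2 ^ j → u ≤ v → v ≤ x + 2 ^ j →
    |(cnt l D r X u v : ℝ) - lam * ((v : ℝ) - u) / Real.log X ^ (2 * l)| ≤ δ * 2 ^ j / Real.log X ^ (2 * l)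

open Classical in
/-- the number of the scales `2 ^ j` between `log ^ (2 l) X` and `Y` at which the density is not constant -/
noncomputable def badScales (l D r : ℕ) (c₁ c₂ δ : ℝ) (X Y x : ℕ) : ℕ :=
  ((range (Nat.log 2 Y + 1)).filter (fun j => Real.log X ^ (2 * l) ≤ (2 : ℝ) ^ j ∧
    ¬ Constant l D r c₁ c₂ δ X x j)).card

/-- the shifts -/
def sh (D i : ℕ) : ℕ := i / 2 * D + 2 * (i % 2)

/-- the system -/
noncomputable def F (l D : ℕ) : Fin (2 * l) → ℤ[X] := fun i => Pool.Agent.TH464.PW.quad 0 1 ((sh D i : ℕ) : ℤ)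

theorem Fe (l D : ℕ) (i : Fin (2 * l)) : F l D i = C (1 : ℤ) * X + C ((sh D i : ℕ) : ℤ) := by
  unfold F Pool.Agent.TH464.PW.quad
  simp

theorem ev (l D : ℕ) (i : Fin (2 * l)) (n : ℕ) : (F l D i).eval (n : ℤ) = ((n + sh D i : ℕ) : ℤ) := by
  rw [Fe]
  simp

theorem sh_inj {D : ℕ} (hD : 3 ≤ D) {i j : ℕ} (h : sh D i = sh D j) : i = j := by
  unfold sh at h
  have hi : i % 2 < 2 := Nat.mod_lt _ (by norm_num)
  have hj : j % 2 < 2 := Nat.mod_lt _ (by norm_num)
  have e1 : i / 2 = j / 2 := by
    rcases Nat.lt_trichotomy (i / 2) (j / 2) with hlt | heq | hgt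
    · have : (i / 2 + 1) * D ≤ j / 2 * D := Nat.mul_le_mul_right _ hlt
      rw [Nat.add_mul] at this
      omega
    · exact heq
    · have : (j / 2 + 1) * D ≤ i / 2 * D := Nat.mul_le_mul_right _ hgt
      rw [Nat.add_mul] at this
      omega
  rw [e1] at h
  omega

theorem sys {l D : ℕ} (hD : 3 ≤ D) (hDp : ∀ p : ℕ, p.Prime → p ≤ 2 * l → p ∣ D) :
    Pool.Agent.W123.RU.Poly.Sys (F l D) := by
  refine ⟨?_, ?_, ?_, ?_, ?_⟩
  · intro i
    exact Pool.Agent.V11249.NP.lin_irr _ _ one_ne_zero (by simp)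
  · intro i
    rw [Fe, natDegree_linear one_ne_zero]
    norm_num
  · intro i
    rw [Fe, leadingCoeff_linear one_ne_zero]
    norm_num
  · intro i j hij
    have h1 : (F l D i).eval ((0 : ℕ) : ℤ) = (F l D j).eval ((0 : ℕ) : ℤ) := by rw [hij]
    rw [ev, ev] at h1
    have h2 : 0 + sh D i = 0 + sh D j := by exact_mod_cast h1
    exact Fin.ext (sh_inj hD (by omega))
  · intro p hp
    by_cases hpl : p ≤ 2 * l
    · refine ⟨p - 1, fun i hd => ?_⟩
      rw [ev] at hd
      have hd' : p ∣ p - 1 + sh D i := Int.natCast_dvd_natCast.1 hd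
      have hp2 := hp.two_le
      have h1 : p ∣ (i : ℕ) / 2 * D := (hDp p hp hpl).mul_left _
      unfold sh at hd'
      rcases Nat.mod_two_eq_zero_or_one (i : ℕ) with h0 | h0
      · rw [h0] at hd'
        have h2 : p ∣ p - 1 := by
          have h3 : p - 1 + ((i : ℕ) / 2 * D + 2 * 0) = (i : ℕ) / 2 * D + (p - 1) := by omega
          rw [h3] at hd'
          exact (Nat.dvd_add_right h1).1 hd'
        have := Nat.le_of_dvd (by omega) h2
        omega
      · rw [h0] at hd'
        have h3 : p - 1 + ((i : ℕ) / 2 * D + 2 * 1) = ((i : ℕ) / 2 * D + p) + 1 := by omega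
        rw [h3] at hd'
        have h4 : p ∣ 1 := (Nat.dvd_add_right (Dvd.dvd.add h1 dvd_rfl)).1 hd'
        have := Nat.le_of_dvd one_pos h4
        omega
    · -- at most `2 l` excluded classes
      classical
      by_contra hcon
      push Not at hcon
      have hcov : range p ⊆ (univ : Finset (Fin (2 * l))).image (fun i : Fin (2 * l) => (p - sh D (i : ℕ) % p) % p) := by
        intro x hx
        rw [mem_range] at hx
        obtain ⟨i, hi⟩ := hcon x
        rw [ev] at hi
        have hi' : p ∣ x + sh D i := Int.natCast_dvd_natCast.1 hi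
        rw [mem_image]
        refine ⟨i, mem_univ i, ?_⟩
        have hmod : (x + sh D i % p) % p = 0 := by
          rw [Nat.add_mod_mod]
          exact Nat.mod_eq_zero_of_dvd hi'
        have hs : sh D i % p < p := Nat.mod_lt _ hp.pos
        rcases Nat.eq_zero_or_pos (sh D i % p) with h0 | h0
        · rw [h0] at hmod ⊢
          rw [Nat.add_zero, Nat.mod_eq_of_lt hx] at hmod
          rw [hmod]
          simp
        · have h5 : p ∣ x + sh D i % p := Nat.dvd_of_mod_eq_zero hmod
          obtain ⟨t, ht⟩ := h5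
          have ht1 : t = 1 := by
            rcases Nat.lt_trichotomy t 1 with h6 | h6 | h6
            · have : t = 0 := by omega
              rw [this] at ht
              omega
            · exact h6
            · have : p * 2 ≤ p * t := Nat.mul_le_mul_left _ h6
              omega
          rw [ht1, mul_one] at ht
          rw [Nat.mod_eq_of_lt (by omega)]
          omega
      have h7 := (card_le_card hcov).trans card_image_le
      rw [card_range, card_univ, Fintype.card_fin] at h7
      omega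

theorem iff_almost (l D r : ℕ) (z : ℝ) (n : ℕ) :
    TwinAP l D r z n ↔ Pool.Agent.TH464.PW.Almost (F l D) r z n := by
  unfold TwinAP Almost Pool.Agent.TH464.PW.Almost
  constructor
  · intro H i
    rw [ev, Int.natAbs_natCast]
    have h1 := H ((i : ℕ) / 2) (by have := i.isLt; omega)
    rcases Nat.mod_two_eq_zero_or_one (i : ℕ) with h0 | h0
    · have e : n + sh D i = n + (i : ℕ) / 2 * D := by
        unfold sh
        omega
      rw [e]
      exact ⟨h1.1.1, fun q hq hd => h1.1.2 q hq (Int.natCast_dvd_natCast.1 hd)⟩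
    · have e : n + sh D i = n + (i : ℕ) / 2 * D + 2 := by
        unfold sh
        omega
      rw [e]
      exact ⟨h1.2.1, fun q hq hd => h1.2.2 q hq (Int.natCast_dvd_natCast.1 hd)⟩
  · intro H j hj
    have h1 := H ⟨2 * j, by omega⟩
    have h2 := H ⟨2 * j + 1, by omega⟩
    rw [ev, Int.natAbs_natCast] at h1 h2
    have e1 : n + sh D (2 * j) = n + j * D := by
      unfold sh
      have a1 : 2 * j / 2 = j := by omega
      have a2 : 2 * j % 2 = 0 := by omega
      rw [a1, a2]
      omega
    have e2 : n + sh D (2 * j + 1) = n + j * D + 2 := by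
      unfold sh
      have a1 : (2 * j + 1) / 2 = j := by omega
      have a2 : (2 * j + 1) % 2 = 1 := by omega
      rw [a1, a2]
      omega
    simp only [e1] at h1
    simp only [e2] at h2
    exact ⟨⟨h1.1, fun q hq hd => h1.2 q hq (Int.natCast_dvd_natCast.2 hd)⟩,
      ⟨h2.1, fun q hq hd => h2.2 q hq (Int.natCast_dvd_natCast.2 hd)⟩⟩

open Classical in
/-- Let `l ≥ 1`, `D ≥ 3` a multiple of all primes `≤ 2 l`, `0 < θ ≤ 1`. There are `r` and `c₁, c₂, K, κ > 0` such that for
every `δ > 0` there is `B` such that for all large `X` and all `X ^ θ ≤ Y ≤ X`: at least `κ Y` of the `x` in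
`(X, X + Y]` are regular and have at most `B` scales at which the density is not constant up to `δ`. -/
theorem result (l D : ℕ) (hl : 1 ≤ l) (hD : 3 ≤ D) (hDp : ∀ p : ℕ, p.Prime → p ≤ 2 * l → p ∣ D)
    (θ : ℝ) (hθ : 0 < θ) (hθ1 : θ ≤ 1) :
    ∃ (r : ℕ) (c₁ c₂ K κ : ℝ), 0 < c₁ ∧ 0 < c₂ ∧ 0 < K ∧ 0 < κ ∧ ∀ δ : ℝ, 0 < δ → ∃ B : ℕ,
      ∀ᶠ X : ℕ in atTop, ∀ Y : ℕ, (X : ℝ) ^ θ ≤ Y → Y ≤ X →
        κ * Y ≤ (((Ioc X (X + Y)).filter (fun x =>
          Regular l D r c₁ c₂ K X Y x ∧ badScales l D r c₁ c₂ δ X Y x ≤ B)).card : ℝ) :=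
  Pool.Agent.V11249.NP.reg_win (g := 2 * l) (by omega) (F l D) (sys hD hDp) (TwinAP l D) (iff_almost l D) θ hθ hθ1

end Pool.Agent.Results.MP_a1f59e_nt.RegularWindows
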